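import Pool.Agent.R302.JBMain

namespace Pool.Agent.Results.MP_6503f0_an.StrictProduct

open Pool.Agent.R302.JB

universe u v

/-- Let `A` be a JB*-algebra (on the Banach space `V`), embedded isometrically, by a linear and
multiplicative map `i`, into a normed Jordan algebra `B` (on the normed space `W`), for instance
into its bidual. Then the set `M` of the multipliers of `A` in `B` is closed under the Jordan
product, and for every `x` in `M` the map `y ↦ x ∘ y` of `M` into itself is continuous for the
J-strict topology, on all of `M`. -/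
theorem result {V : Type u} [NormedAddCommGroup V] [NormedSpace ℂ V] [CompleteSpace V]
    {W : Type v} [NormedAddCommGroup W] [NormedSpace ℂ W]
    (A : JBStar V) (B : NormedJordan W) (i : V →ₗᵢ[ℂ] W)
    (hi : ∀ a b : V, i (A.mul a b) = B.mul (i a) (i b)) :
    ∃ h : ∀ x ∈ Mult B i, ∀ y ∈ Mult B i, B.mul x y ∈ Mult B i,
      ∀ x : Mult B i, @Continuous (Mult B i) (Mult B i) (jstrict B i) (jstrict B i)
        (fun y => ⟨B.mul x y, h x x.2 y y.2⟩) :=
  ⟨fun _ hx _ hy => mult_mul A B i hi hx hy, fun x => cont_jstrict A B i hi x.2⟩

end Pool.Agent.Results.MP_6503f0_an.StrictProduct
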